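import Mathlib
import Pool.Agent.K3h61.SR.Main
import Pool.Agent.Results.MP_a1c723_lc.LuzinStarRothberger

/-!
# MP_a1c723_lc, Q1: yes, it is consistent

* Over an arbitrary ground model there is a notion of forcing with the countable chain condition
  which forces that `cov(M) ≤ ℵ₁ < 𝔡` (`PhiHolds`, in the forcing language).
* In ZFC: if `cov(M) ≤ ℵ₁ < 𝔡`, then there is an almost disjoint family as in the question.

The notion of forcing is the finite support iteration of length `ω₂ * ω₁`, consisting of `ω₁`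
blocks of `ω₂` Cohen reals, each followed by eventually different forcing. The eventually
different reals witness `cov(M) ≤ ℵ₁`. A Cohen real whose coordinate is not used by a named
function is not dominated by this function: this is a compactness property of the iteration.
-/

set_option autoImplicit false

namespace Pool.Agent.Results.MP_a1c723_lc.ConsistentlyYes

open Cardinal Filter Pool.Agent.Helper669.Forcing Pool.Agent.Helper669.OFormula
  Pool.Agent.K3h61.SR Pool.Agent.Results.MP_a1c723_lc.LuzinStarRothberger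

private theorem covM_le {W : Type} (hW : #W = ℵ₁) (h : PhiFor W) : covM ≤ ℵ₁ := by
  obtain ⟨⟨F, hF⟩, -⟩ := h
  have h1 : covM ≤ #(Set.range F) := by
    refine csInf_le' ⟨Set.range F, rfl, fun g => ?_⟩
    obtain ⟨w, N, hN⟩ := hF g
    refine ⟨F w, ⟨w, rfl⟩, (Set.finite_lt_nat N).subset fun n hn => ?_⟩
    by_contra hlt
    exact hN n (not_lt.1 hlt) hn
  exact h1.trans (mk_range_le.trans hW.le)

private theorem lt_domNumber {W : Type} (hW : #W = ℵ₁) (h : PhiFor W) : ℵ₁ < domNumber := by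
  by_contra hle
  rw [not_lt] at hle
  have hne : {κ | ∃ D : Set (ℕ → ℕ), #D = κ ∧
      ∀ f : ℕ → ℕ, ∃ g ∈ D, ∀ᶠ n in atTop, f n ≤ g n}.Nonempty :=
    ⟨_, Set.univ, rfl, fun f => ⟨f, Set.mem_univ _, Eventually.of_forall (fun n => le_rfl)⟩⟩
  obtain ⟨D, hD1, hD2⟩ := csInf_mem hne
  have hDle : #D ≤ #W := by
    rw [hD1, hW]; exact hle
  obtain ⟨g0, hg0, _⟩ := hD2 (fun _ => 0)
  have : Nonempty D := ⟨⟨g0, hg0⟩⟩
  obtain ⟨emb⟩ := hDle
  have hsurj : Function.Surjective (Function.invFun emb) := Function.invFun_surjective emb.injective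
  refine h.2 ⟨fun w => (Function.invFun emb w).1, fun f => ?_⟩
  obtain ⟨g, hg, hfg⟩ := hD2 f
  obtain ⟨w, hw⟩ := hsurj ⟨g, hg⟩
  obtain ⟨N, hN⟩ := eventually_atTop.1 hfg
  exact ⟨w, N, fun n hn => by simpa only [hw] using hN n hn⟩

/-- (1) Over an arbitrary ground model there are a set `W` of cardinality `ℵ₁` and a notion of
forcing `P` with the countable chain condition, all of whose conditions force that cardinals are
preserved and that `PhiFor W` holds. (2) Whenever `PhiFor W` holds for some set `W` of cardinality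
`ℵ₁`, then there is an almost disjoint family `𝒜` of cardinality `ℵ₁` with `cov(M) ≤ |𝒜|` and
`cof([𝒜]^ℵ₀) = |𝒜|`, whose Isbell–Mrówka space is star-Rothberger. -/
theorem result :
    (∃ (W P : Type) (_ : Preorder P), #W = ℵ₁ ∧ Nonempty P ∧ CCC P ∧
      ∀ p : P, p ∈ CardinalsPreserved.{0, 0} P ∧ p ∈ PhiHolds P W) ∧
    (∀ W : Type, #W = ℵ₁ → PhiFor W → covM ≤ ℵ₁ ∧ ℵ₁ < domNumber ∧
      ∃ 𝒜 : Set (Set ℕ), IsADFamily 𝒜 ∧ #𝒜 = ℵ₁ ∧ covM ≤ #𝒜 ∧ cofCountable 𝒜 = #𝒜 ∧
        StarRothberger (Psi 𝒜)) :=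
  ⟨exists_forcing, fun _ hW h => ⟨covM_le hW h, lt_domNumber hW h,
    LuzinStarRothberger.result.2.2 ⟨covM_le hW h, lt_domNumber hW h⟩⟩⟩

end Pool.Agent.Results.MP_a1c723_lc.ConsistentlyYes
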